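import Pool.Agent.H629R2.HT.Fin
import Pool.Agent.H629R2.HT.Grad
import Pool.Agent.H629R2.HT.Poly
import Pool.Agent.H629R2.HT.Seg3
import Pool.Agent.H629R2.HT.Aue
import Pool.Agent.H629R2.HT.Neg3
import Pool.Agent.H629R2.HT.Simp

/-!
# MP_87489e: the Busemann case in dimension three

The least value of the translative constant `c_tr` for the Busemann volume, over all convex bodies
of `ℝ ^ 3`, is `32 π / 15`; it is attained by simplices.
-/

set_option autoImplicit false

namespace Pool.Agent.Results.MP_87489e_co.BusMin3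

open MeasureTheory Set
open scoped Pointwise

/-- A convex body: a compact convex set with nonempty interior. -/
structure IsConvexBody {d : ℕ} (K : Set (Fin d → ℝ)) : Prop where
  isCompact : IsCompact K
  convex : Convex ℝ K
  interior_nonempty : (interior K).Nonempty

/-- The unit ball `M = (K - K)/2` of the relative norm of `K`. -/
def relBall {d : ℕ} (K : Set (Fin d → ℝ)) : Set (Fin d → ℝ) := (1 / 2 : ℝ) • (K - K)

/-- The volume of the Euclidean unit ball of `ℝ ^ d`. -/
noncomputable def kappa (d : ℕ) : ENNReal :=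
  volume (Metric.closedBall (0 : EuclideanSpace ℝ (Fin d)) 1)

/-- The Busemann volume of `S` for the norm with unit ball `M`. -/
noncomputable def busVol {d : ℕ} (M S : Set (Fin d → ℝ)) : ENNReal :=
  kappa d / volume M * volume S

/-- The maximal Busemann volume, in the relative norm of `K`, of the convex hull of the union of
`K` and a translate of `K` that meets `K`. -/
noncomputable def cTr {d : ℕ} (K : Set (Fin d → ℝ)) : ENNReal :=
  ⨆ (p : Fin d → ℝ) (_ : ((p +ᵥ K) ∩ K).Nonempty),
    busVol (relBall K) (convexHull ℝ (K ∪ (p +ᵥ K)))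

/-- The simplex with vertices `0, e_0, e_1, e_2`. -/
def simplex : Set (Fin 3 → ℝ) := {x | (∀ i, 0 ≤ x i) ∧ ∑ i, x i ≤ 1}

/-- The least value of `cTr K` over all convex bodies `K` in `ℝ ^ 3` is `32 π / 15`; it is attained
by the simplex, and for every convex body some single translation gives at least this value. -/
theorem result :
    IsLeast {c : ENNReal | ∃ K : Set (Fin 3 → ℝ), IsConvexBody K ∧ cTr K = c}
      (ENNReal.ofReal (32 * Real.pi / 15)) ∧
    (IsConvexBody simplex ∧ cTr simplex = ENNReal.ofReal (32 * Real.pi / 15)) ∧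
    ∀ K : Set (Fin 3 → ℝ), IsConvexBody K → ∃ p : Fin 3 → ℝ, ((p +ᵥ K) ∩ K).Nonempty ∧
      ENNReal.ofReal (32 * Real.pi / 15) ≤
        busVol (relBall K) (convexHull ℝ (K ∪ (p +ᵥ K))) := by
  have hsimp : H629R2.HT.S_simp := H629R2.HT.S_simp_proof
  have hlow : ∀ K : Set (Fin 3 → ℝ), IsConvexBody K → ∃ p : Fin 3 → ℝ,
      ((p +ᵥ K) ∩ K).Nonempty ∧ ENNReal.ofReal (32 * Real.pi / 15) ≤
        busVol (relBall K) (convexHull ℝ (K ∪ (p +ᵥ K))) := fun K hK =>
    H629R2.HT.bus_final_lower (H629R2.HT.S_poly_proof H629R2.HT.S_grad_proof)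
      H629R2.HT.S_seg3_proof H629R2.HT.S_aue_proof H629R2.HT.S_neg3_proof
      ⟨hK.isCompact, hK.convex, hK.interior_nonempty⟩
  have hlow' : ∀ K : Set (Fin 3 → ℝ), IsConvexBody K →
      ENNReal.ofReal (32 * Real.pi / 15) ≤ cTr K := by
    intro K hK
    obtain ⟨p, hp, h⟩ := hlow K hK
    exact le_iSup_of_le p (le_iSup_of_le hp h)
  have hS : IsConvexBody simplex := ⟨hsimp.1.comp, hsimp.1.conv, hsimp.1.int⟩
  have hSv : cTr simplex = ENNReal.ofReal (32 * Real.pi / 15) :=
    le_antisymm (iSup_le fun p => iSup_le fun hp => H629R2.HT.bus_final_upper hsimp hp)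
      (hlow' _ hS)
  refine ⟨⟨⟨simplex, hS, hSv⟩, ?_⟩, ⟨hS, hSv⟩, hlow⟩
  rintro c ⟨K, hK, rfl⟩
  exact hlow' K hK

end Pool.Agent.Results.MP_87489e_co.BusMin3
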